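import Mathlib

set_option autoImplicit false

namespace Pool.Agent.H.MP_f2e062_co

/-- The infinite sequence `x` contains a repetition of total length at least 3: a factor `ww`
with `|w| = r ≥ 2`, or a factor `aaa`. -/
def HasRep {α : Type} (x : ℕ → α) : Prop :=
  (∃ k r : ℕ, 2 ≤ r ∧ ∀ i : ℕ, i < r → x (k + i) = x (k + r + i)) ∨
    ∃ k : ℕ, x k = x (k + 1) ∧ x (k + 1) = x (k + 2)

/-- Player 1 has a strategy in the `c`-ary sequence game: a map `σ` from the list of all previous
moves to his next symbol such that every play `x` in which he (positions 0, 2, 4, ...) follows `σ`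
has no repetition of total length at least 3, whatever Player 2 plays at positions 1, 3, 5, ... -/
def HasStrategy (c : ℕ) : Prop :=
  ∃ σ : List (Fin c) → Fin c, ∀ x : ℕ → Fin c,
    (∀ k : ℕ, x (2 * k) = σ (List.ofFn (fun i : Fin (2 * k) => x i))) → ¬ HasRep x

end Pool.Agent.H.MP_f2e062_co
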