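import Pool.Agent.H.MP_f2e062_co.U

set_option autoImplicit false
set_option maxRecDepth 100000

namespace Pool.Agent.H.MP_f2e062_co

def badB (l : List ℕ) : Bool :=
  (decide (3 ≤ l.length) && (l[0]? == l[1]?) && (l[1]? == l[2]?)) ||
    (List.range l.length).any fun p => decide (2 ≤ p) && decide (2 * p ≤ l.length) &&
      (List.range p).all fun i => l[i]? == l[i+p]?

theorem bad_rep {c : ℕ} (x : ℕ → Fin c) (n : ℕ) (h : badB (R (fun i => (x i).val) n) = true) :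
    HasRep x := by
  simp only [badB, Bool.or_eq_true, Bool.and_eq_true, decide_eq_true_eq, beq_iff_eq,
    List.any_eq_true, List.all_eq_true, List.mem_range, R_len] at h
  rcases h with ⟨⟨h1, h2⟩, h3⟩ | ⟨p, _, ⟨h1, h2⟩, h3⟩
  · right
    rw [R_get _ _ _ (by omega), R_get _ _ _ (by omega)] at h2 h3
    refine ⟨n - 3, Fin.ext ?_, Fin.ext ?_⟩
    · rw [show n - 3 = n - 1 - 2 by omega, show n - 1 - 2 + 1 = n - 1 - 1 by omega]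
      exact (Option.some.inj h3).symm
    · rw [show n - 3 + 1 = n - 1 - 1 by omega, show n - 3 + 2 = n - 1 - 0 by omega]
      exact (Option.some.inj h2).symm
  · left
    refine ⟨n - 2 * p, p, h1, fun i hi => Fin.ext ?_⟩
    have := h3 (p - 1 - i) (by omega)
    rw [R_get _ _ _ (by omega), R_get _ _ _ (by omega)] at this
    rw [show n - 2 * p + i = n - 1 - (p - 1 - i + p) by omega,
      show n - 2 * p + p + i = n - 1 - (p - 1 - i) by omega]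
    exact (Option.some.inj this).symm

inductive T
  | L : T
  | N : ℕ → T → ℕ → T → ℕ → T → ℕ → T → T

def check (c : ℕ) : T → List ℕ → Bool
  | .L, _ => false
  | .N b0 t0 b1 t1 b2 t2 b3 t3, s =>
    (decide (c ≤ 0) || badB (0 :: s) || (decide (b0 < c) &&
      (badB (b0 :: 0 :: s) || check c t0 (b0 :: 0 :: s)))) &&
    (decide (c ≤ 1) || badB (1 :: s) || (decide (b1 < c) &&
      (badB (b1 :: 1 :: s) || check c t1 (b1 :: 1 :: s)))) &&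
    (decide (c ≤ 2) || badB (2 :: s) || (decide (b2 < c) &&
      (badB (b2 :: 2 :: s) || check c t2 (b2 :: 2 :: s)))) &&
    (decide (c ≤ 3) || badB (3 :: s) || (decide (b3 < c) &&
      (badB (b3 :: 3 :: s) || check c t3 (b3 :: 3 :: s))))

def Hs {α : Type} (σ : List α → α) (β : ℕ → α) : ℕ → List α
  | 0 => []
  | n+1 => (if n % 2 = 0 then σ (Hs σ β n).reverse else β n) :: Hs σ β n

def pl {α : Type} (σ : List α → α) (β : ℕ → α) (n : ℕ) : α :=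
  if n % 2 = 0 then σ (Hs σ β n).reverse else β n

theorem Hs_R {α : Type} (σ : List α → α) (β : ℕ → α) : ∀ n, R (pl σ β) n = Hs σ β n
  | 0 => rfl
  | n+1 => by rw [R, Hs, Hs_R σ β n, pl]

theorem Hs_congr {α : Type} (σ : List α → α) (β β' : ℕ → α) :
    ∀ n, (∀ i, i < n → β i = β' i) → Hs σ β n = Hs σ β' n
  | 0, _ => rfl
  | n+1, h => by
    rw [Hs, Hs, Hs_congr σ β β' n (fun i hi => h i (by omega)), h n (by omega)]

theorem R_map {c : ℕ} (x : ℕ → Fin c) : ∀ n, R (fun i => (x i).val) n = (R x n).map Fin.val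
  | 0 => rfl
  | n+1 => by rw [R, R, R_map x n, List.map_cons]

theorem pl_ok {c : ℕ} (σ : List (Fin c) → Fin c) (β : ℕ → Fin c) (k : ℕ) :
    pl σ β (2 * k) = σ (List.ofFn (fun i : Fin (2 * k) => pl σ β i)) := by
  rw [pl, if_pos (by omega), ← Hs_R, ← R_ofFn, List.reverse_reverse]

theorem branch {c : ℕ} (σ : List (Fin c) → Fin c) (β : ℕ → Fin c) (k a b : ℕ) (t : T)
    (ih : ∀ (β : ℕ → Fin c) (k : ℕ), check c t ((Hs σ β (2 * k)).map Fin.val) = true →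
      ∃ β', HasRep (pl σ β'))
    (ha : (σ (Hs σ β (2 * k)).reverse).val = a)
    (h : (decide (c ≤ a) || badB (a :: (Hs σ β (2 * k)).map Fin.val) || (decide (b < c) &&
      (badB (b :: a :: (Hs σ β (2 * k)).map Fin.val) ||
        check c t (b :: a :: (Hs σ β (2 * k)).map Fin.val)))) = true) :
    ∃ β', HasRep (pl σ β') := by
  simp only [Bool.or_eq_true, Bool.and_eq_true, decide_eq_true_eq] at h
  have e1 : ∀ β', (∀ i, i < 2 * k → β' i = β i) →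
      (Hs σ β' (2 * k + 1)).map Fin.val = a :: (Hs σ β (2 * k)).map Fin.val := by
    intro β' hβ
    rw [Hs, if_pos (by omega), Hs_congr σ β' β _ hβ, List.map_cons, ha]
  rcases h with (h | h) | ⟨hb, h⟩
  · have := (σ (Hs σ β (2 * k)).reverse).isLt
    omega
  · refine ⟨β, bad_rep _ (2 * k + 1) ?_⟩
    rw [R_map, Hs_R, e1 β (fun _ _ => rfl)]; exact h
  · let β' : ℕ → Fin c := fun i => if i = 2 * k + 1 then ⟨b, hb⟩ else β i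
    have e2 : (Hs σ β' (2 * (k + 1))).map Fin.val = b :: a :: (Hs σ β (2 * k)).map Fin.val := by
      rw [show 2 * (k + 1) = 2 * k + 1 + 1 by omega, Hs, if_neg (by omega), List.map_cons,
        e1 β' (fun i hi => if_neg (by omega))]
      simp [β']
    rcases h with h | h
    · refine ⟨β', bad_rep _ (2 * (k + 1)) ?_⟩
      rw [R_map, Hs_R, e2]; exact h
    · exact ih β' (k+1) (by rw [e2]; exact h)

theorem check_rep {c : ℕ} (hc : c ≤ 4) (σ : List (Fin c) → Fin c) (t : T) :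
    ∀ (β : ℕ → Fin c) (k : ℕ), check c t ((Hs σ β (2 * k)).map Fin.val) = true →
      ∃ β', HasRep (pl σ β') := by
  induction t with
  | L => intro β k h; simp [check] at h
  | N b0 t0 b1 t1 b2 t2 b3 t3 i0 i1 i2 i3 =>
    intro β k h
    rw [check, Bool.and_eq_true, Bool.and_eq_true, Bool.and_eq_true] at h
    obtain ⟨⟨⟨h0, h1⟩, h2⟩, h3⟩ := h
    have hlt := (σ (Hs σ β (2 * k)).reverse).isLt
    have : (σ (Hs σ β (2 * k)).reverse).val = 0 ∨ (σ (Hs σ β (2 * k)).reverse).val = 1 ∨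
      (σ (Hs σ β (2 * k)).reverse).val = 2 ∨ (σ (Hs σ β (2 * k)).reverse).val = 3 := by omega
    rcases this with e | e | e | e
    · exact branch σ β k 0 b0 t0 i0 e h0
    · exact branch σ β k 1 b1 t1 i1 e h1
    · exact branch σ β k 2 b2 t2 i2 e h2
    · exact branch σ β k 3 b3 t3 i3 e h3

theorem lower_of {c : ℕ} (hc : c ≤ 4) (t : T) (ht : check c t [] = true) : ¬ HasStrategy c := by
  rintro ⟨σ, hσ⟩
  obtain ⟨β', h⟩ := check_rep hc σ t (fun _ => σ []) 0 ht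
  exact hσ _ (pl_ok σ β') h

def t1 : T :=   (.N 0 (.N 0 .L 0 .L 0 .L 0 .L) 0 .L 0 .L 0 .L)

def t2 : T :=   (.N 1 (.N 1 .L 1 .L 0 .L 0 .L) 0 (.N 0 .L 0 .L 0 .L 0 .L) 0 .L 0 .L)

def t3 : T :=   (.N 1 (.N 1 .L 1 .L 0 (.N 0 .L 2 .L 0 .L 0 .L) 0 .L) 0 (.N 0 .L 0 .L 1 (.N 2 .L 1 .L 1 .L 0 
  .L) 0 .L) 0 (.N 0 .L 2 (.N 1 .L 2 .L 2 .L 0 .L) 0 .L 0 .L) 0 .L)

def t4 : T :=   (.N 1 (.N 1 .L 1 .L 0 (.N 0 .L 2 .L 0 .L 2 (.N 3 .L 3 (.N 1 (.N 1 .L 1 .L 0 (.N 0 .L 2 .L 0 .L 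
  2 (.N 3 .L 3 .L 2 .L 2 .L)) 0 .L) 3 .L 1 .L 3 .L) 2 .L 2 .L)) 0 (.N 0 .L 3 .L 3 (.N 2 .L 2 (.N 
  1 (.N 1 .L 1 .L 0 .L 0 (.N 0 .L 3 .L 3 (.N 2 .L 2 .L 3 .L 3 .L) 0 .L)) 2 .L 2 .L 1 .L) 3 .L 3 
  .L) 0 .L)) 0 (.N 0 .L 0 .L 1 (.N 2 .L 1 .L 1 .L 2 (.N 3 (.N 3 .L 0 (.N 0 .L 0 .L 1 (.N 2 .L 1 
  .L 1 .L 2 (.N 3 .L 3 .L 2 .L 2 .L)) 1 .L) 0 .L 3 .L) 3 .L 2 .L 2 .L)) 1 (.N 3 .L 1 .L 3 (.N 2 
  (.N 2 .L 0 (.N 0 .L 0 .L 1 .L 1 (.N 3 .L 1 .L 3 (.N 2 .L 2 .L 3 .L 3 .L) 1 .L)) 2 .L 0 .L) 2 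
  .L 3 .L 3 .L) 1 .L)) 0 (.N 0 .L 2 (.N 1 .L 2 .L 2 .L 1 (.N 3 (.N 3 .L 0 .L 0 (.N 0 .L 2 (.N 1 
  .L 2 .L 2 .L 1 (.N 3 .L 1 .L 3 .L 1 .L)) 0 .L 2 .L) 3 .L) 1 .L 3 .L 1 .L)) 0 .L 2 (.N 3 .L 3 
  (.N 1 (.N 1 .L 1 .L 0 (.N 0 .L 2 .L 0 .L 2 (.N 3 .L 3 (.N 1 .L 3 .L 1 .L 3 .L) 2 .L 2 .L)) 0 
  .L) 3 .L 1 .L 3 .L) 2 .L 2 .L)) 0 (.N 0 .L 3 (.N 1 .L 3 .L 1 (.N 2 (.N 2 .L 0 .L 2 .L 0 (.N 0 
  .L 3 (.N 1 .L 3 .L 1 (.N 2 .L 1 .L 1 .L 2 .L) 3 .L) 3 .L 0 .L)) 1 .L 1 .L 2 .L) 3 .L) 3 (.N 2 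
  .L 2 (.N 1 (.N 1 .L 1 .L 0 .L 0 (.N 0 .L 3 .L 3 (.N 2 .L 2 (.N 1 .L 2 .L 2 .L 1 .L) 3 .L 3 .L) 
  0 .L)) 2 .L 2 .L 1 .L) 3 .L 3 .L) 0 .L))

theorem lower {c : ℕ} (hc : c ≤ 4) : ¬ HasStrategy c := by
  have : c = 0 ∨ c = 1 ∨ c = 2 ∨ c = 3 ∨ c = 4 := by omega
  rcases this with rfl | rfl | rfl | rfl | rfl
  · rintro ⟨σ, _⟩; exact (σ []).elim0
  · exact lower_of hc t1 (by decide +kernel)
  · exact lower_of hc t2 (by decide +kernel)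
  · exact lower_of hc t3 (by decide +kernel)
  · exact lower_of hc t4 (by decide +kernel)

end Pool.Agent.H.MP_f2e062_co
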