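import Pool.Agent.H.MP_f2e062_co.Defs

set_option autoImplicit false

namespace Pool.Agent.H.MP_f2e062_co

open Classical

def R {α : Type} (x : ℕ → α) : ℕ → List α
  | 0 => []
  | n+1 => x n :: R x n

theorem R_len {α : Type} (x : ℕ → α) : ∀ n, (R x n).length = n
  | 0 => rfl
  | n+1 => by simp [R, R_len x n]

theorem R_get {α : Type} (x : ℕ → α) : ∀ n i, i < n → (R x n)[i]? = some (x (n - 1 - i))
  | 0, _, h => absurd h (by omega)
  | n+1, 0, _ => by simp [R]
  | n+1, i+1, h => by
    simp only [R, List.getElem?_cons_succ]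
    rw [R_get x n i (by omega), show n - 1 - i = n + 1 - 1 - (i+1) by omega]

theorem R_ofFn {α : Type} (x : ℕ → α) : ∀ n, (List.ofFn (fun i : Fin n => x i)).reverse = R x n
  | 0 => rfl
  | n+1 => by
    rw [List.ofFn_succ_last]
    simp only [Fin.val_castSucc, Fin.val_last, List.reverse_append, List.reverse_cons,
      List.reverse_nil, List.nil_append, List.singleton_append, R]
    rw [R_ofFn x n]

def Per {α : Type} (l : List α) (p : ℕ) : Prop :=
  2 * p ≤ l.length + 1 ∧ ∀ i, i + 1 < p → l[i]? = l[i+p]?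

def Safe {α : Type} (l : List α) : Prop := l[0]? ≠ l[1]? ∧ ∀ p, 2 ≤ p → ¬ Per l p

def Win {α : Type} : ℕ → List α → Prop
  | 0, _ => True
  | n+1, s => ∃ a, Safe (a :: s) ∧ ∀ b, Win n (b :: a :: s)

noncomputable def S {c : ℕ} (τ : List (Fin c) → Fin c) : ℕ → Finset (List (Fin c))
  | 0 => {[]}
  | n+1 => (((S τ n) ×ˢ (Finset.univ : Finset (Fin c))).filter
      (fun q => Safe (q.2 :: q.1))).image (fun q => τ (q.2 :: q.1) :: q.2 :: q.1)

theorem S_succ {c : ℕ} (τ : List (Fin c) → Fin c) (n : ℕ) (s : List (Fin c))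
    (h : s ∈ S τ (n+1)) : ∃ a t, t ∈ S τ n ∧ Safe (a :: t) ∧ s = τ (a :: t) :: a :: t := by
  simp only [S, Finset.mem_image, Finset.mem_filter, Finset.mem_product, Finset.mem_univ,
    and_true] at h
  obtain ⟨q, ⟨h1, h2⟩, h3⟩ := h
  exact ⟨q.2, q.1, h1, h2, h3.symm⟩

theorem S_len {c : ℕ} (τ : List (Fin c) → Fin c) : ∀ n s, s ∈ S τ n → s.length = 2 * n
  | 0, s, h => by simp only [S, Finset.mem_singleton] at h; simp [h]
  | n+1, s, h => by
    obtain ⟨a, t, h1, _, rfl⟩ := S_succ τ n s h
    have := S_len τ n t h1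
    simp only [List.length_cons]; omega

theorem S_drop {c : ℕ} (τ : List (Fin c) → Fin c) (k : ℕ) :
    ∀ j s, s ∈ S τ (k + j) → s.drop (2 * j) ∈ S τ k
  | 0, s, h => by simpa using h
  | j+1, s, h => by
    obtain ⟨a, t, h1, _, rfl⟩ := S_succ τ (k+j) s h
    have := S_drop τ k j t h1
    rw [show 2 * (j+1) = 2 * j + 1 + 1 by omega, List.drop_succ_cons, List.drop_succ_cons]
    exact this

theorem S_safe {c : ℕ} (τ : List (Fin c) → Fin c) (n j : ℕ) (s : List (Fin c))
    (h : s ∈ S τ n) (hj : j < n) :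
    s[2*j+1]? ≠ s[2*j+2]? ∧ (j + 1 < n → s[2*j+1]? ≠ s[2*j+3]?) := by
  have h1 := S_drop τ (n - j - 1 + 1) j s (by rwa [show n - j - 1 + 1 + j = n by omega])
  have hl := S_len τ _ _ h1
  obtain ⟨a, t, _, h3, h4⟩ := S_succ τ _ _ h1
  have e : ∀ i, s[2*j+(i+1)]? = (a :: t)[i]? := by
    intro i
    rw [← List.getElem?_drop, h4, List.getElem?_cons_succ]
  refine ⟨?_, fun hn => ?_⟩
  · rw [e 0, e 1]; exact h3.1
  · rw [e 0, e 2]
    intro hc
    apply h3.2 2 le_rfl
    refine ⟨?_, fun i hi => ?_⟩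
    · rw [h4] at hl
      simp only [List.length_cons] at hl ⊢; omega
    · obtain rfl : i = 0 := by omega
      exact hc

noncomputable def ex {α : Type} (s : List α) : Option α :=
  if s[0]? = s[3]? then s[2]? else if s[1]? = s[5]? then s[3]? else s[4]?

theorem bad_cases {c : ℕ} (τ : List (Fin c) → Fin c) (n : ℕ) (s : List (Fin c))
    (h : s ∈ S τ n) (a : Fin c) (hu : ¬ Safe (a :: s)) :
    some a ∈ ({s[0]?, s[1]?, ex s} : Finset (Option (Fin c))) ∨
      ∃ k, k < n - 1 ∧ ∃ e, e < 2 ∧ Per (a :: s) (2 * (n + 1 - k) + e) := by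
  have hl := S_len τ n s h
  simp only [Finset.mem_insert, Finset.mem_singleton]
  by_cases h0 : (a :: s)[0]? = (a :: s)[1]?
  · left; left; simpa using h0
  have : ∃ p, 2 ≤ p ∧ Per (a :: s) p := by
    by_contra hc
    exact hu ⟨h0, fun p hp hq => hc ⟨p, hp, hq⟩⟩
  obtain ⟨p, hp, hq⟩ := this
  have hlen := hq.1
  simp only [List.length_cons] at hlen
  by_cases h6 : 6 ≤ p
  · right
    refine ⟨n + 1 - p / 2, by omega, p % 2, by omega, ?_⟩
    rwa [show 2 * (n + 1 - (n + 1 - p / 2)) + p % 2 = p by omega]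
  left; right
  have q0 := hq.2 0 (by omega)
  have hp' : p = 2 ∨ p = 3 ∨ p = 4 ∨ p = 5 := by omega
  rcases hp' with rfl | rfl | rfl | rfl
  · left; simpa using q0
  · right
    have q1 := hq.2 1 (by omega)
    simp only [List.getElem?_cons_succ, List.getElem?_cons_zero] at q0 q1
    rw [ex, if_pos q1]; exact q0
  · right
    have q1 := hq.2 1 (by omega)
    have q2 := hq.2 2 (by omega)
    simp only [List.getElem?_cons_succ, List.getElem?_cons_zero] at q0 q1 q2
    have f1 := (S_safe τ n 1 s h (by omega)).1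
    have g : ¬ s[0]? = s[3]? := fun hc => f1 (hc.symm.trans q1)
    rw [ex, if_neg g, if_pos q2]; exact q0
  · right
    have q1 := hq.2 1 (by omega)
    have q2 := hq.2 2 (by omega)
    simp only [List.getElem?_cons_succ, List.getElem?_cons_zero] at q0 q1 q2
    have f1 := (S_safe τ n 1 s h (by omega)).2 (by omega)
    have f2 := (S_safe τ n 2 s h (by omega)).1
    have g : ¬ s[0]? = s[3]? := fun hc => f1 (hc.symm.trans q1)
    have g2 : ¬ s[1]? = s[5]? := fun hc => f2 (hc.symm.trans q2)
    rw [ex, if_neg g, if_neg g2]; exact q0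

theorem card_per {c : ℕ} (τ : List (Fin c) → Fin c) (n k e : ℕ) (hk : k < n - 1) :
    (((S τ n) ×ˢ (Finset.univ : Finset (Fin c))).filter
      (fun q => Per (q.2 :: q.1) (2 * (n + 1 - k) + e))).card ≤ (S τ k).card := by
  apply Finset.card_le_card_of_injOn (fun q => q.1.drop (2 * (n - k)))
  · intro q hq
    simp only [Finset.coe_filter, Finset.mem_product, Finset.mem_univ, and_true,
      Set.mem_setOf_eq] at hq
    exact S_drop τ k (n - k) q.1 (by rw [show k + (n - k) = n by omega]; exact hq.1)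
  · intro q hq q' hq' hd
    simp only [Finset.coe_filter, Finset.mem_product, Finset.mem_univ, and_true,
      Set.mem_setOf_eq] at hq hq'
    have big : ∀ i, 2 * (n - k) + 1 ≤ i → (q.2 :: q.1)[i]? = (q'.2 :: q'.1)[i]? := by
      intro i hi
      obtain ⟨m, rfl⟩ := Nat.exists_eq_add_of_le hi
      rw [show 2 * (n - k) + 1 + m = 2 * (n - k) + m + 1 by omega, List.getElem?_cons_succ,
        List.getElem?_cons_succ, ← List.getElem?_drop, ← List.getElem?_drop]
      simp only at hd
      rw [hd]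
    have : q.2 :: q.1 = q'.2 :: q'.1 := by
      apply List.ext_getElem?
      intro i
      by_cases hi : 2 * (n - k) + 1 ≤ i
      · exact big i hi
      · rw [hq.2.2 i (by omega), hq'.2.2 i (by omega)]
        exact big _ (by omega)
    simp only [List.cons.injEq] at this
    exact Prod.ext this.2 this.1

theorem card_step {c : ℕ} (τ : List (Fin c) → Fin c) (n : ℕ) :
    (S τ n).card * c ≤ (S τ (n+1)).card + (S τ n).card * 3 +
      ∑ k ∈ Finset.range (n - 1), 2 * (S τ k).card := by
  have e1 : (S τ (n+1)).card = (((S τ n) ×ˢ (Finset.univ : Finset (Fin c))).filter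
      (fun q => Safe (q.2 :: q.1))).card := by
    rw [S]
    apply Finset.card_image_of_injOn
    intro q _ q' _ h
    simp only [List.cons.injEq] at h
    exact Prod.ext h.2.2 h.2.1
  have e2 := Finset.card_filter_add_card_filter_not (s := (S τ n) ×ˢ (Finset.univ : Finset (Fin c)))
    (fun q => Safe (q.2 :: q.1))
  rw [Finset.card_product, Finset.card_univ, Fintype.card_fin] at e2
  have e3 : (((S τ n) ×ˢ (Finset.univ : Finset (Fin c))).filter
      (fun q => ¬ Safe (q.2 :: q.1))) ⊆
      ((S τ n).biUnion (fun s => (Finset.univ.filter (fun a : Fin c =>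
        some a ∈ ({s[0]?, s[1]?, ex s} : Finset (Option (Fin c))))).image (fun a => (s, a)))) ∪
      (Finset.range (n-1)).biUnion (fun k => (Finset.range 2).biUnion (fun e =>
        ((S τ n) ×ˢ (Finset.univ : Finset (Fin c))).filter
          (fun q => Per (q.2 :: q.1) (2 * (n + 1 - k) + e)))) := by
    intro q hq
    rw [Finset.mem_filter] at hq
    have hs := (Finset.mem_product.1 hq.1).1
    rcases bad_cases τ n q.1 hs q.2 hq.2 with h | ⟨k, hk, e, he, h⟩
    · apply Finset.mem_union_left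
      rw [Finset.mem_biUnion]
      exact ⟨q.1, hs, Finset.mem_image.2 ⟨q.2, Finset.mem_filter.2 ⟨Finset.mem_univ _, h⟩, rfl⟩⟩
    · apply Finset.mem_union_right
      rw [Finset.mem_biUnion]
      refine ⟨k, Finset.mem_range.2 hk, Finset.mem_biUnion.2 ⟨e, Finset.mem_range.2 he, ?_⟩⟩
      exact Finset.mem_filter.2 ⟨hq.1, h⟩
  have e4 := (Finset.card_le_card e3).trans (Finset.card_union_le _ _)
  have e5 : ((S τ n).biUnion (fun s => (Finset.univ.filter (fun a : Fin c =>
        some a ∈ ({s[0]?, s[1]?, ex s} : Finset (Option (Fin c))))).image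
        (fun a => (s, a)))).card ≤ (S τ n).card * 3 := by
    apply Finset.card_biUnion_le_card_mul
    intro s _
    refine Finset.card_image_le.trans ?_
    refine le_trans (Finset.card_le_card_of_injOn (t := ({s[0]?, s[1]?, ex s} :
      Finset (Option (Fin c)))) some ?_ ?_) Finset.card_le_three
    · intro a ha
      exact (Finset.mem_filter.1 (Finset.mem_coe.1 ha)).2
    · intro a _ b _ h
      exact Option.some.inj h
  have e6 : ((Finset.range (n-1)).biUnion (fun k => (Finset.range 2).biUnion (fun e =>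
        ((S τ n) ×ˢ (Finset.univ : Finset (Fin c))).filter
          (fun q => Per (q.2 :: q.1) (2 * (n + 1 - k) + e))))).card ≤
      ∑ k ∈ Finset.range (n - 1), 2 * (S τ k).card := by
    refine Finset.card_biUnion_le.trans (Finset.sum_le_sum fun k hk => ?_)
    have := Finset.card_biUnion_le_card_mul (Finset.range 2) (fun e =>
        ((S τ n) ×ˢ (Finset.univ : Finset (Fin c))).filter
          (fun q => Per (q.2 :: q.1) (2 * (n + 1 - k) + e))) (S τ k).card
          (fun e _ => card_per τ n k e (Finset.mem_range.1 hk))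
    rwa [Finset.card_range] at this
  omega

theorem card_grow {c : ℕ} (hc : 6 ≤ c) (τ : List (Fin c) → Fin c) : ∀ n,
    2 * (S τ n).card ≤ (S τ (n+1)).card ∧
      ∑ k ∈ Finset.range n, 2 * (S τ k).card ≤ 2 * (S τ n).card ∧
      ∑ k ∈ Finset.range (n-1), 2 * (S τ k).card ≤ (S τ n).card
  | 0 => by
    have := card_step τ 0
    have h2 := Nat.mul_le_mul_left (S τ 0).card hc
    simp only [Nat.zero_sub, Finset.range_zero, Finset.sum_empty] at this ⊢
    omega
  | n+1 => by
    obtain ⟨i1, i2, i3⟩ := card_grow hc τ n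
    have := card_step τ (n+1)
    have h2 := Nat.mul_le_mul_left (S τ (n+1)).card hc
    rw [Finset.sum_range_succ]
    simp only [Nat.add_sub_cancel] at this ⊢
    omega

theorem card_pos {c : ℕ} (hc : 6 ≤ c) (τ : List (Fin c) → Fin c) : ∀ n, 0 < (S τ n).card
  | 0 => by simp [S]
  | n+1 => by
    have := card_pos hc τ n
    have := (card_grow hc τ n).1
    omega

theorem win_nil {c : ℕ} (hc : 6 ≤ c) (n : ℕ) : Win n ([] : List (Fin c)) := by
  by_contra hw
  let τ : List (Fin c) → Fin c := fun l =>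
    if h : ∃ b, ¬ Win (n - l.length / 2 - 1) (b :: l) then h.choose else ⟨0, by omega⟩
  have key : ∀ k, k ≤ n → ∀ s, s ∈ S τ k → ¬ Win (n - k) s := by
    intro k
    induction k with
    | zero =>
      intro _ s hs
      simp only [S, Finset.mem_singleton] at hs
      rw [hs]; exact hw
    | succ k ih =>
      intro hk s hs
      obtain ⟨a, t, h1, h2, rfl⟩ := S_succ τ k s hs
      have h3 := ih (by omega) t h1
      have hl := S_len τ k t h1
      rw [show n - k = (n - (k+1)) + 1 by omega] at h3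
      have e : n - (a :: t).length / 2 - 1 = n - (k+1) := by
        simp only [List.length_cons]; omega
      have h4 : ∃ b, ¬ Win (n - (a :: t).length / 2 - 1) (b :: a :: t) := by
        rw [e]
        by_contra hc2
        exact h3 ⟨a, h2, fun b => by_contra fun hb => hc2 ⟨b, hb⟩⟩
      have h5 : τ (a :: t) = h4.choose := dif_pos h4
      rw [h5, ← e]
      exact h4.choose_spec
  obtain ⟨s, hs⟩ := Finset.card_pos.1 (card_pos hc τ n)
  have := key n le_rfl s hs
  rw [Nat.sub_self] at this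
  exact this trivial

theorem win_mono {α : Type} : ∀ (n m : ℕ) (s : List α), n ≤ m → Win m s → Win n s
  | 0, _, _, _, _ => trivial
  | _+1, 0, _, h, _ => absurd h (by omega)
  | n+1, m+1, s, h, ⟨a, h1, h2⟩ => ⟨a, h1, fun b => win_mono n m _ (by omega) (h2 b)⟩

theorem win_step {c : ℕ} (s : List (Fin c)) (h : ∀ n, Win n s) :
    ∃ a, Safe (a :: s) ∧ ∀ b n, Win n (b :: a :: s) := by
  by_contra hc
  have : ∀ a, ∃ n, ¬ (Safe (a :: s) ∧ ∀ b, Win n (b :: a :: s)) := by
    intro a
    by_contra h2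
    have h3 : ∀ n, Safe (a :: s) ∧ ∀ b, Win n (b :: a :: s) :=
      fun n => by_contra fun hn => h2 ⟨n, hn⟩
    exact hc ⟨a, (h3 0).1, fun b n => (h3 n).2 b⟩
  choose f hf using this
  obtain ⟨a, h1, h2⟩ := h (Finset.univ.sup f + 1)
  exact hf a ⟨h1, fun b => win_mono _ _ _ (Finset.le_sup (f := f) (Finset.mem_univ a)) (h2 b)⟩

theorem upper {c : ℕ} (hc : 6 ≤ c) : HasStrategy c := by
  let σ : List (Fin c) → Fin c := fun s =>
    if h : ∀ n, Win n s then (win_step s h).choose else ⟨0, by omega⟩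
  refine ⟨fun l => σ l.reverse, fun x hx hr => ?_⟩
  simp only [R_ofFn] at hx
  have key : ∀ k, (∀ n, Win n (R x (2 * k))) → Safe (R x (2 * k + 1)) ∧
      ∀ n, Win n (R x (2 * (k+1))) := by
    intro k h
    have e : x (2 * k) = (win_step _ h).choose := by rw [hx k]; exact dif_pos h
    have := (win_step _ h).choose_spec
    rw [← e] at this
    exact ⟨this.1, fun n => this.2 (x (2 * k + 1)) n⟩
  have hw : ∀ k n, Win n (R x (2 * k)) := by
    intro k
    induction k with
    | zero => exact fun n => win_nil hc n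
    | succ k ih => exact (key k ih).2
  have hs : ∀ k, Safe (R x (2 * k + 1)) := fun k => (key k (hw k)).1
  rcases hr with ⟨k, r, hr, h⟩ | ⟨k, h1, h2⟩
  · apply (hs ((k + 2 * r - 1) / 2)).2 r hr
    refine ⟨by rw [R_len]; omega, fun i hi => ?_⟩
    rw [R_get _ _ _ (by omega), R_get _ _ _ (by omega)]
    have := h (2 * ((k + 2 * r - 1) / 2) + 1 - 1 - (i + r) - k) (by omega)
    rw [show k + (2 * ((k + 2 * r - 1) / 2) + 1 - 1 - (i + r) - k) =
        2 * ((k + 2 * r - 1) / 2) + 1 - 1 - (i + r) by omega,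
      show k + r + (2 * ((k + 2 * r - 1) / 2) + 1 - 1 - (i + r) - k) =
        2 * ((k + 2 * r - 1) / 2) + 1 - 1 - i by omega] at this
    rw [this]
  · apply (hs ((k + 2) / 2)).1
    rw [R_get _ _ _ (by omega), R_get _ _ _ (by omega)]
    rcases Nat.mod_two_eq_zero_or_one k with hk | hk
    · rw [show 2 * ((k + 2) / 2) + 1 - 1 - 0 = k + 2 by omega,
        show 2 * ((k + 2) / 2) + 1 - 1 - 1 = k + 1 by omega, h2]
    · rw [show 2 * ((k + 2) / 2) + 1 - 1 - 0 = k + 1 by omega,
        show 2 * ((k + 2) / 2) + 1 - 1 - 1 = k by omega, h1]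

end Pool.Agent.H.MP_f2e062_co
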